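import Mathlib

/-!
Scales for the fast times (project EV, Borel–Cantelli).
-/

set_option autoImplicit false

namespace Pool.Agent.Y510.EV

open Filter Topology

/-- displacements of the scale `n` and the class `j` (copy of `Y41.EV.yy`) -/
noncomputable def yz (K : ℝ) (n j : ℕ) : ℝ :=
  2 ^ j * (K * ((((1:ℝ)/2) ^ n) ^ (4/7 : ℝ) * Real.log n ^ (3/7 : ℝ)))

theorem log_pos' {n : ℕ} (hn : 2 ≤ n) : 0 < Real.log n :=
  Real.log_pos (by exact_mod_cast (by omega : 1 < n))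

theorem yz_pos {K : ℝ} (hK : 1 ≤ K) {n : ℕ} (hn : 2 ≤ n) (j : ℕ) : 0 < yz K n j := by
  have := log_pos' hn
  have hK0 : 0 < K := by linarith
  unfold yz
  positivity

theorem yz_rpow {K : ℝ} (hK : 1 ≤ K) {n : ℕ} (hn : 2 ≤ n) (j : ℕ) :
    yz K n j ^ (7/4 : ℝ) = (2 ^ j) ^ (7/4 : ℝ) * (K ^ (7/4 : ℝ) *
      (((1:ℝ)/2) ^ n * Real.log n ^ (3/4 : ℝ))) := by
  have hl := log_pos' hn
  have hK0 : 0 < K := by linarith
  unfold yz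
  rw [Real.mul_rpow (by positivity) (by positivity), Real.mul_rpow hK0.le (by positivity),
    Real.mul_rpow (by positivity) (by positivity), ← Real.rpow_mul (by positivity),
    ← Real.rpow_mul hl.le]
  norm_num

theorem one_le_two_pow_rpow (j : ℕ) (x : ℝ) (hx : 0 ≤ x) : (1:ℝ) ≤ ((2:ℝ) ^ j) ^ x :=
  Real.one_le_rpow (one_le_pow₀ (by norm_num)) hx

theorem yz_B {K B : ℝ} (hK : 1 ≤ K) {n : ℕ} (hn : 2 ≤ n)
    (hB : 2 * B ≤ Real.log n ^ (3/4 : ℝ)) (j : ℕ) :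
    B * (2 * (1/2) ^ n) ≤ yz K n j ^ (7/4 : ℝ) := by
  rw [yz_rpow hK hn]
  have hl := log_pos' hn
  have h1 : (1:ℝ) ≤ (2 ^ j) ^ (7/4 : ℝ) := one_le_two_pow_rpow j _ (by norm_num)
  have h2 : (1:ℝ) ≤ K ^ (7/4 : ℝ) := Real.one_le_rpow hK (by norm_num)
  have h3 : 0 ≤ ((1:ℝ)/2) ^ n * Real.log n ^ (3/4 : ℝ) := by positivity
  have h4 : B * (2 * (1/2) ^ n) ≤ ((1:ℝ)/2) ^ n * Real.log n ^ (3/4 : ℝ) := by
    have h5 : 0 < ((1:ℝ)/2) ^ n := by positivity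
    calc B * (2 * (1/2) ^ n) = (1/2) ^ n * (2 * B) := by ring
      _ ≤ _ := mul_le_mul_of_nonneg_left hB h5.le
  calc B * (2 * (1/2) ^ n) ≤ ((1:ℝ)/2) ^ n * Real.log n ^ (3/4 : ℝ) := h4
    _ ≤ K ^ (7/4 : ℝ) * (((1:ℝ)/2) ^ n * Real.log n ^ (3/4 : ℝ)) := le_mul_of_one_le_left h3 h2
    _ ≤ _ := le_mul_of_one_le_left (by positivity) h1

theorem yz_exp {a K : ℝ} (ha : 0 < a) (hK : 1 ≤ K) (hK2 : 24 / a ≤ K ^ (7/3 : ℝ)) {n : ℕ}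
    (hn : 2 ≤ n) (j : ℕ) :
    Real.exp (-(a * (yz K n j ^ (7/4 : ℝ) / (2 * (1/2) ^ n)) ^ (4/3 : ℝ))) ≤
      (n : ℝ) ^ (-(6 * 2 ^ j) : ℝ) := by
  have hl := log_pos' hn
  have hn0 : (0:ℝ) < n := by exact_mod_cast (by omega : 0 < n)
  have hK0 : 0 < K := by linarith
  rw [Real.rpow_def_of_pos hn0]
  refine Real.exp_le_exp.mpr ?_
  have e1 : yz K n j ^ (7/4 : ℝ) / (2 * (1/2) ^ n) =
      (2 ^ j) ^ (7/4 : ℝ) * (K ^ (7/4 : ℝ) * (Real.log n ^ (3/4 : ℝ) * (1/2))) := by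
    rw [yz_rpow hK hn]
    have h5 : ((1:ℝ)/2) ^ n ≠ 0 := by positivity
    rw [div_eq_iff (by positivity)]
    ring
  have e2 : (yz K n j ^ (7/4 : ℝ) / (2 * (1/2) ^ n)) ^ (4/3 : ℝ) =
      (2 ^ j) ^ (7/3 : ℝ) * (K ^ (7/3 : ℝ) * (Real.log n * (1/2) ^ (4/3 : ℝ))) := by
    rw [e1, Real.mul_rpow (by positivity) (by positivity), Real.mul_rpow (by positivity)
      (by positivity), Real.mul_rpow (by positivity) (by positivity),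
      ← Real.rpow_mul (by positivity), ← Real.rpow_mul hK0.le, ← Real.rpow_mul hl.le]
    norm_num
  rw [e2]
  have h1 : (2:ℝ) ^ j ≤ (2 ^ j) ^ (7/3 : ℝ) := by
    calc (2:ℝ) ^ j = ((2:ℝ) ^ j) ^ (1:ℝ) := (Real.rpow_one _).symm
      _ ≤ _ := Real.rpow_le_rpow_of_exponent_le (one_le_pow₀ (by norm_num)) (by norm_num)
  have h2 : (1/4 : ℝ) ≤ (1/2) ^ (4/3 : ℝ) := by
    calc (1/4 : ℝ) = (1/2) ^ (2:ℝ) := by norm_num
      _ ≤ _ := Real.rpow_le_rpow_of_exponent_ge (by norm_num) (by norm_num) (by norm_num)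
  have h3 : 24 ≤ a * K ^ (7/3 : ℝ) := by
    rw [div_le_iff₀ ha] at hK2
    linarith
  have h4 : Real.log n * (1/4) ≤ Real.log n * (1/2) ^ (4/3 : ℝ) :=
    mul_le_mul_of_nonneg_left h2 hl.le
  have h5 : 24 * (Real.log n * (1/4)) ≤ (a * K ^ (7/3 : ℝ)) * (Real.log n * (1/2) ^ (4/3 : ℝ)) :=
    mul_le_mul h3 h4 (by positivity) (by positivity)
  have h6 : (2:ℝ) ^ j * (24 * (Real.log n * (1/4))) ≤ (2 ^ j) ^ (7/3 : ℝ) *
      ((a * K ^ (7/3 : ℝ)) * (Real.log n * (1/2) ^ (4/3 : ℝ))) :=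
    mul_le_mul h1 h5 (by positivity) (by positivity)
  nlinarith [h6]

theorem pow_bound {n : ℕ} (hn : 2 ≤ n) (j : ℕ) :
    (n : ℝ) ^ (-(4 * 2 ^ j) : ℝ) ≤ (1 / (n : ℝ) ^ 2) * (1/2) ^ j := by
  have hn2 : (2:ℝ) ≤ n := by exact_mod_cast hn
  have hn0 : (0:ℝ) < n := by linarith
  have h1 : ((2 + j : ℕ) : ℝ) ≤ 4 * 2 ^ j := by
    have h2 : j < 2 ^ j := Nat.lt_two_pow_self
    have h3 : 2 + j ≤ 4 * 2 ^ j := by omega
    exact_mod_cast h3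
  have h2 : (n : ℝ) ^ (-(4 * 2 ^ j) : ℝ) ≤ (n : ℝ) ^ (-((2 + j : ℕ) : ℝ)) :=
    Real.rpow_le_rpow_of_exponent_le (by linarith) (by linarith)
  refine h2.trans ?_
  rw [Real.rpow_neg hn0.le, Real.rpow_natCast, pow_add, mul_inv, one_div]
  refine mul_le_mul_of_nonneg_left ?_ (by positivity)
  rw [one_div, inv_pow]
  exact inv_anti₀ (by positivity) (pow_le_pow_left₀ (by norm_num) hn2 j)

/-- The estimate used for the first Borel–Cantelli lemma. -/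
theorem yz_prob {a K A : ℝ} (ha : 0 < a) (hK : 1 ≤ K) (hK2 : 24 / a ≤ K ^ (7/3 : ℝ))
    (hA : 0 < A) {n : ℕ} (hn : 2 ≤ n) (j : ℕ) :
    A * Real.exp (-(a * (yz K n j ^ (7/4 : ℝ) / (2 * (1/2) ^ n)) ^ (4/3 : ℝ))) /
      (n : ℝ) ^ (-(2 * 2 ^ j) : ℝ) ≤ A * ((1 / (n : ℝ) ^ 2) * (1/2) ^ j) := by
  have hn0 : (0:ℝ) < n := by exact_mod_cast (by omega : 0 < n)
  have h0 : 0 < (n : ℝ) ^ (-(2 * 2 ^ j) : ℝ) := Real.rpow_pos_of_pos hn0 _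
  rw [div_le_iff₀ h0]
  calc A * Real.exp (-(a * (yz K n j ^ (7/4 : ℝ) / (2 * (1/2) ^ n)) ^ (4/3 : ℝ))) ≤
      A * (n : ℝ) ^ (-(6 * 2 ^ j) : ℝ) := mul_le_mul_of_nonneg_left (yz_exp ha hK hK2 hn j) hA.le
    _ = A * (n : ℝ) ^ (-(4 * 2 ^ j) : ℝ) * (n : ℝ) ^ (-(2 * 2 ^ j) : ℝ) := by
        rw [mul_assoc, ← Real.rpow_add hn0]
        congr 2
        ring
    _ ≤ _ := mul_le_mul_of_nonneg_right (mul_le_mul_of_nonneg_left (pow_bound hn j) hA.le) h0.le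

end Pool.Agent.Y510.EV
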