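import Pool.Agent.Y41.EV.StmL
import Pool.Agent.Y510.EV.Sc
import Pool.Agent.H984R4.NP.Limit

/-!
FTAE: almost surely the fast times are rare (project EV).
-/

set_option autoImplicit false

namespace Pool.Agent.Y510.EV

open H974 Finset H342P H984P H984N MeasureTheory Filter Topology
open Pool.Agent.Y41.EV

theorem yy_eq : yy = yz := rfl

/-- For a curve of positive duration the sets of fast times are empty from some scale on. -/
theorem ft_empty (p : C(unitInterval, ℂ) × ℝ) (hp : 0 < p.2) {y0 : ℝ} (hy0 : 0 < y0) :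
    ∃ n2 : ℕ, ∀ n : ℕ, n2 ≤ n → ∀ y : ℝ, y0 ≤ y → FT p y (2 * (1/2) ^ n) = ∅ := by
  have huc : UniformContinuous p.1 := CompactSpace.uniformContinuous_of_continuous p.1.continuous
  obtain ⟨η, hη, h1⟩ := Metric.uniformContinuous_iff.1 huc y0 hy0
  have h2 : Tendsto (fun n : ℕ => (2:ℝ) * (1/2) ^ n) atTop (𝓝 0) := by
    have h3 := (tendsto_pow_atTop_nhds_zero_of_lt_one (r := (1/2 : ℝ)) (by norm_num)
      (by norm_num)).const_mul 2
    rwa [mul_zero] at h3
  obtain ⟨n2, hn2⟩ := eventually_atTop.1 (h2.eventually (gt_mem_nhds (show 0 < η * p.2 by positivity)))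
  refine ⟨n2, fun n hn y hy => ?_⟩
  rw [Set.eq_empty_iff_forall_notMem]
  rintro t ⟨s, hs1, hs2⟩
  have h3 := hn2 n hn
  have h4 : |(s : ℝ) - t| < η := by
    have h5 : p.2 * |(s : ℝ) - t| < p.2 * η := by linarith
    exact lt_of_mul_lt_mul_left h5 hp.le
  have h6 : dist s t < η := by
    rw [Subtype.dist_eq, Real.dist_eq]
    exact h4
  have h7 := h1 h6
  linarith

theorem t : S_FTAE := by
  intro hO a B ha hB
  obtain ⟨K, hK, hK2⟩ : ∃ K : ℝ, 1 ≤ K ∧ 24 / a ≤ K ^ (7/3 : ℝ) := by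
    refine ⟨max 1 ((24 / a) ^ (3/7 : ℝ)), le_max_left _ _, ?_⟩
    have h1 : 0 < 24 / a := by positivity
    calc 24 / a = ((24 / a) ^ (3/7 : ℝ)) ^ (7/3 : ℝ) := by
          rw [← Real.rpow_mul h1.le]; norm_num
      _ ≤ _ := Real.rpow_le_rpow (by positivity) (le_max_right _ _) (by norm_num)
  refine ⟨K, by linarith, ?_⟩
  intro R A y0 hA hy0 hL δ hδ hlim μ hμ
  obtain ⟨n1, hn1⟩ : ∃ n1 : ℕ, ∀ n : ℕ, n1 ≤ n → 2 ≤ n ∧ 2 * B ≤ Real.log n ^ (3/4 : ℝ) := by
    have h1 : Tendsto (fun n : ℕ => Real.log n ^ (3/4 : ℝ)) atTop atTop :=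
      (tendsto_rpow_atTop (by norm_num)).comp
        (Real.tendsto_log_atTop.comp tendsto_natCast_atTop_atTop)
    obtain ⟨n1, h2⟩ := eventually_atTop.1 (h1.eventually_ge_atTop (2 * B))
    exact ⟨max n1 2, fun n hn => ⟨le_trans (le_max_right _ _) hn,
      h2 n (le_trans (le_max_left _ _) hn)⟩⟩
  obtain ⟨S, hS⟩ : ∃ S : ℕ × ℕ → Set X, S = fun q => {p | (n1 ≤ q.1 ∧ yy K q.1 q.2 ≤ y0) ∧
      (q.1 : ℝ) ^ (-(2 * 2 ^ q.2) : ℝ) <
        p.2 * (volume (FT p (yy K q.1 q.2) (2 * (1/2) ^ q.1))).toReal} := ⟨_, rfl⟩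
  have hmeas : ∀ q, (μ : Measure X) (S q) ≤
      ENNReal.ofReal (A * ((1 / (q.1 : ℝ) ^ 2) * (1/2) ^ q.2)) := by
    rintro ⟨n, j⟩
    by_cases hc : n1 ≤ n ∧ yy K n j ≤ y0
    · obtain ⟨hn2, hnB⟩ := hn1 n hc.1
      have hn0 : (0:ℝ) < n := by exact_mod_cast (by omega : 0 < n)
      have hb : 0 < (n : ℝ) ^ (-(2 * 2 ^ j) : ℝ) := Real.rpow_pos_of_pos hn0 _
      have hy : 0 < yy K n j := yz_pos hK hn2 j
      obtain ⟨δ1, hδ1, h3⟩ := hL (yy K n j) (2 * (1/2) ^ n) _ hy hc.2 (by positivity)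
        (yz_B hK hn2 hnB j) hb
      have h4 := limit_closed R hδ hlim hμ
        (G := {p : X | (n : ℝ) ^ (-(2 * 2 ^ j) : ℝ) <
          p.2 * (volume (FT p (yy K n j) (2 * (1/2) ^ n))).toReal}ᶜ)
        (hO _ _ _ hb.le).isClosed_compl
        (ε := A * Real.exp (-(a * (yy K n j ^ (7/4 : ℝ) / (2 * (1/2) ^ n)) ^ (4/3 : ℝ))) /
          (n : ℝ) ^ (-(2 * 2 ^ j) : ℝ)) (by positivity) hδ1 (fun d hd hd' => by
          have := h3 d hd hd'
          simpa only [Set.mem_compl_iff, not_not] using this)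
      rw [compl_compl] at h4
      have h5 : S (n, j) ⊆ {p : X | (n : ℝ) ^ (-(2 * 2 ^ j) : ℝ) <
          p.2 * (volume (FT p (yy K n j) (2 * (1/2) ^ n))).toReal} := by
        rw [hS]
        rintro p ⟨-, h⟩
        exact h
      refine (measure_mono h5).trans (h4.trans (ENNReal.ofReal_le_ofReal ?_))
      exact yz_prob ha hK hK2 hA hn2 j
    · have h5 : S (n, j) = ∅ := by
        rw [hS, Set.eq_empty_iff_forall_notMem]
        rintro p ⟨h, -⟩
        exact hc h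
      rw [h5, measure_empty]
      exact zero_le
  have hsum : ∑' q, (μ : Measure X) (S q) ≠ ⊤ := by
    have s1 : Summable (fun n : ℕ => A * (1 / (n : ℝ) ^ 2)) :=
      (Real.summable_one_div_nat_pow.2 (by norm_num)).mul_left A
    have s2 : Summable (fun j : ℕ => ((1:ℝ)/2) ^ j) :=
      summable_geometric_of_lt_one (by norm_num) (by norm_num)
    have s3 := s1.mul_of_nonneg s2 (fun n => by positivity) (fun j => by positivity)
    have s4 : Summable (fun q : ℕ × ℕ => A * ((1 / (q.1 : ℝ) ^ 2) * (1/2) ^ q.2)) := by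
      refine s3.congr fun q => ?_
      ring
    refine ne_top_of_le_ne_top ?_ (ENNReal.tsum_le_tsum hmeas)
    rw [← ENNReal.ofReal_tsum_of_nonneg (fun q => by positivity) s4]
    exact ENNReal.ofReal_ne_top
  filter_upwards [ae_finite_setOfPred_mem hsum] with p hp
  obtain ⟨n3, hn3⟩ : ∃ n3 : ℕ, ∀ q : ℕ × ℕ, p ∈ S q → q.1 < n3 := by
    obtain ⟨M, hM⟩ := (hp.image Prod.fst).bddAbove
    refine ⟨M + 1, fun q hq => ?_⟩
    have := hM ⟨q, hq, rfl⟩
    omega
  rcases le_or_gt p.2 0 with hp2 | hp2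
  · refine ⟨0, fun n _ j => ?_⟩
    have h1 : 0 ≤ (n : ℝ) ^ (-(2 * 2 ^ j) : ℝ) := Real.rpow_nonneg (Nat.cast_nonneg n) _
    exact (mul_nonpos_of_nonpos_of_nonneg hp2 ENNReal.toReal_nonneg).trans h1
  · obtain ⟨n2, hn2⟩ := ft_empty p hp2 hy0
    refine ⟨max n1 (max n2 n3), fun n hn j => ?_⟩
    have a1 : n1 ≤ n := le_trans (le_max_left _ _) hn
    have a2 : n2 ≤ n := le_trans (le_trans (le_max_left _ _) (le_max_right _ _)) hn
    have a3 : n3 ≤ n := le_trans (le_trans (le_max_right _ _) (le_max_right _ _)) hn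
    rcases le_or_gt (yy K n j) y0 with hy | hy
    · by_contra hcon
      rw [not_le] at hcon
      have h1 : p ∈ S (n, j) := by
        rw [hS]
        exact ⟨⟨a1, hy⟩, hcon⟩
      have := hn3 _ h1
      simp only at this
      omega
    · rw [hn2 n a2 _ hy.le, measure_empty, ENNReal.toReal_zero, mul_zero]
      exact Real.rpow_nonneg (Nat.cast_nonneg n) _

end Pool.Agent.Y510.EV
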